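import Pool.Agent.H62.Pk4

set_option autoImplicit false

namespace Pool.Agent.Results.MP_a7e1fe_lc.Equiv

open Pool.Agent.H62.Pk

/-- PK is a Weihrauch maximum of the compositions f ∘ g with f ≤ lim and g ≤ PK on closed sets:
every such composition reduces to PK, and PK reduces to one of them. -/
theorem result :
    (∀ (X Y Z : Type) (RX : Rep X) (RY : Rep Y) (RZ : Rep Z) (g : X → Set Y) (f : Y → Set Z),
      WLe RY RZ f seqRep baireRep lim → WLe RX RY g clRep clRep PKN →
      WLe RX RZ (comp f g) trRep trRep PK) ∧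
    ∃ (g : Tr → Set (Set Baire)) (f : Set Baire → Set Tr),
      WLe clRep trRep f seqRep baireRep lim ∧ WLe trRep clRep g clRep clRep PKN ∧
      WLe trRep trRep PK trRep trRep (comp f g) :=
  ⟨fun _ _ _ RX RY RZ g f hf hg => upper RX RY RZ g f hf hg, gP, fP, fP_le, gP_le, PK_le⟩

end Pool.Agent.Results.MP_a7e1fe_lc.Equiv
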